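import Mathlib
import Pool.Agent.H77.GR.Stm

/-!
# Project GR, module LAG: interpolation of forms in two variables

Every form of degree `e` in two variables is a combination of the products of all but one of `m ≤ e + 1` pairwise
non-proportional linear forms.
-/

set_option autoImplicit false

open MvPolynomial Module Pool.Agent.H77.TF Pool.Agent.H77.GR

namespace Pool.Agent.H83.GR

section

variable {K : Type} [Field K]

/-- the zero of the linear form with coefficients `h` -/
def zpt (h : Fin 2 → K) : Fin 2 → K := fun i => if i = 0 then h 1 else - h 0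

lemma zpt_zero (h : Fin 2 → K) : zpt h 0 = h 1 := by simp [zpt]

lemma zpt_one (h : Fin 2 → K) : zpt h 1 = - h 0 := by simp [zpt]

lemma lin_two (h : Fin 2 → K) : lin h = C (h 0) * X 0 + C (h 1) * X 1 := by
  simp [lin, Fin.sum_univ_two]

lemma lin_isHom (h : Fin 2 → K) : (lin h).IsHomogeneous 1 := by
  rw [lin_two]
  have h0 := (isHomogeneous_C (Fin 2) (h 0)).mul (isHomogeneous_X K (0 : Fin 2))
  have h1 := (isHomogeneous_C (Fin 2) (h 1)).mul (isHomogeneous_X K (1 : Fin 2))
  rw [zero_add] at h0 h1
  exact h0.add h1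

lemma eval_zpt_lin (h b : Fin 2 → K) : eval (zpt h) (lin b) = b 0 * h 1 - b 1 * h 0 := by
  rw [lin_two]
  simp only [map_add, map_mul, eval_C, eval_X, zpt_zero, zpt_one]
  ring

lemma exists_w (h : Fin 2 → K) (hh : h ≠ 0) :
    ∃ w : MvPolynomial (Fin 2) K, w.IsHomogeneous 1 ∧ eval (zpt h) w = 1 ∧
      ∀ i, lin h ∣ X i - C (zpt h i) * w := by
  by_cases h1 : h 1 = 0
  · have h0 : h 0 ≠ 0 := by
      intro h0
      apply hh
      funext i
      fin_cases i
      · exact h0
      · exact h1
    refine ⟨C (-(h 0)⁻¹) * X 1, ?_, ?_, ?_⟩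
    · have h2 := (isHomogeneous_C (Fin 2) (-(h 0)⁻¹)).mul (isHomogeneous_X K (1 : Fin 2))
      rwa [zero_add] at h2
    · rw [map_mul, eval_C, eval_X, zpt_one]
      field_simp
    · intro i
      fin_cases i
      · refine ⟨C (h 0)⁻¹, ?_⟩
        simp only [Fin.zero_eta, Fin.isValue]
        rw [zpt_zero, lin_two, h1]
        have h3 : C (h 0) * C (h 0)⁻¹ = (1 : MvPolynomial (Fin 2) K) := by
          rw [← C_mul, mul_inv_cancel₀ h0, C_1]
        rw [C_0]
        linear_combination (-X 0) * h3
      · simp only [Fin.mk_one, Fin.isValue]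
        rw [zpt_one]
        have h3 : C (- h 0) * (C (-(h 0)⁻¹) * X 1) = (X 1 : MvPolynomial (Fin 2) K) := by
          rw [← mul_assoc, ← C_mul, neg_mul_neg, mul_inv_cancel₀ h0, C_1, one_mul]
        rw [h3, sub_self]
        exact dvd_zero _
  · refine ⟨C (h 1)⁻¹ * X 0, ?_, ?_, ?_⟩
    · have h2 := (isHomogeneous_C (Fin 2) (h 1)⁻¹).mul (isHomogeneous_X K (0 : Fin 2))
      rwa [zero_add] at h2
    · rw [map_mul, eval_C, eval_X, zpt_zero]
      exact inv_mul_cancel₀ h1
    · intro i
      have h3 : C (h 1) * C (h 1)⁻¹ = (1 : MvPolynomial (Fin 2) K) := by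
        rw [← C_mul, mul_inv_cancel₀ h1, C_1]
      fin_cases i
      · simp only [Fin.zero_eta, Fin.isValue]
        rw [zpt_zero, ← mul_assoc, h3, one_mul, sub_self]
        exact dvd_zero _
      · refine ⟨C (h 1)⁻¹, ?_⟩
        simp only [Fin.mk_one, Fin.isValue]
        rw [zpt_one, lin_two, C_neg]
        linear_combination (-X 1) * h3

lemma hom_sub (h : Fin 2 → K) (w : MvPolynomial (Fin 2) K)
    (hw : ∀ i, lin h ∣ X i - C (zpt h i) * w) {e : ℕ} {f : MvPolynomial (Fin 2) K}
    (hf : f.IsHomogeneous e) : lin h ∣ f - C (eval (zpt h) f) * w ^ e := by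
  have hq : ∀ i, Ideal.Quotient.mk (Ideal.span {lin h}) (X i) =
      Ideal.Quotient.mk (Ideal.span {lin h}) (C (zpt h i)) *
        Ideal.Quotient.mk (Ideal.span {lin h}) w := by
    intro i
    rw [← map_mul, Ideal.Quotient.eq, Ideal.mem_span_singleton]
    exact hw i
  rw [← Ideal.mem_span_singleton, ← Ideal.Quotient.eq]
  have h1 : f = ∑ s ∈ f.support, C (coeff s f) * (X 0 ^ s 0 * X 1 ^ s 1) := by
    conv_lhs => rw [f.as_sum]
    refine Finset.sum_congr rfl fun s _ => ?_
    rw [monomial_eq, Finsupp.prod_fintype _ _ (fun i => pow_zero _), Fin.prod_univ_two]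
  have h2 : eval (zpt h) f = ∑ s ∈ f.support, coeff s f * (zpt h 0 ^ s 0 * zpt h 1 ^ s 1) := by
    rw [eval_eq']
    refine Finset.sum_congr rfl fun s _ => ?_
    rw [Fin.prod_univ_two]
  rw [h2]
  conv_lhs => rw [h1]
  rw [map_mul, map_sum, map_sum, map_sum, Finset.sum_mul]
  refine Finset.sum_congr rfl fun s hs => ?_
  have hs' : s 0 + s 1 = e := by
    have h3 : s.degree = e := by
      by_contra h4
      exact (mem_support_iff.1 hs) (hf.coeff_eq_zero h4)
    rw [Finsupp.degree_eq_sum, Fin.sum_univ_two] at h3
    exact h3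
  rw [← hs']
  simp only [map_mul, map_pow, hq]
  ring

lemma dvd_of_eval (h : Fin 2 → K) (hh : h ≠ 0) {e : ℕ} {f : MvPolynomial (Fin 2) K}
    (hf : f.IsHomogeneous e) (h0 : eval (zpt h) f = 0) : lin h ∣ f := by
  obtain ⟨w, -, -, hw⟩ := exists_w h hh
  have := hom_sub h w hw hf
  rwa [h0, C_0, zero_mul, sub_zero] at this

/-- a homogeneous multiple of a form is a multiple by a form -/
lemma hom_factor {u j : ℕ} {f g h : MvPolynomial (Fin 2) K} (hf : f.IsHomogeneous u)
    (hg : g.IsHomogeneous (u + j)) (hfg : g = f * h) : g = f * homogeneousComponent j h := by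
  have h1 : homogeneousComponent (u + j) g = g := by
    rw [homogeneousComponent_of_mem ((mem_homogeneousSubmodule _ _).2 hg), if_pos rfl]
  have h2 : ∀ i, homogeneousComponent (u + j) (f * homogeneousComponent i h) =
      if u + j = u + i then f * homogeneousComponent i h else 0 := by
    intro i
    exact homogeneousComponent_of_mem
      ((mem_homogeneousSubmodule _ _).2 (hf.mul (homogeneousComponent_isHomogeneous i h)))
  have h3 : g = ∑ i ∈ Finset.range (h.totalDegree + 1), f * homogeneousComponent i h := by
    rw [← Finset.mul_sum, sum_homogeneousComponent, hfg]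
  rw [← h1]
  conv_lhs => rw [h3]
  rw [map_sum, Finset.sum_congr rfl (fun i _ => h2 i)]
  by_cases hj : j ∈ Finset.range (h.totalDegree + 1)
  · rw [Finset.sum_eq_single_of_mem j hj]
    · rw [if_pos rfl]
    · intro i _ hi
      rw [if_neg (by omega)]
  · rw [Finset.sum_eq_zero]
    · rw [homogeneousComponent_eq_zero _ _ (by simpa using hj), mul_zero]
    · intro i hi
      rw [if_neg]
      rintro h4
      have : i = j := by omega
      exact hj (this ▸ hi)

lemma prop_of_eval (h b : Fin 2 → K) (hh : h ≠ 0) (h0 : eval (zpt h) (lin b) = 0) :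
    ∃ t : K, b = t • h := by
  rw [eval_zpt_lin] at h0
  by_cases h1 : h 1 = 0
  · have h2 : h 0 ≠ 0 := by
      intro h2
      apply hh
      funext i
      fin_cases i
      · exact h2
      · exact h1
    refine ⟨b 0 / h 0, ?_⟩
    funext i
    fin_cases i
    · simp only [Fin.zero_eta, Fin.isValue, Pi.smul_apply, smul_eq_mul]
      rw [div_mul_cancel₀ _ h2]
    · simp only [Fin.mk_one, Fin.isValue, Pi.smul_apply, smul_eq_mul]
      rw [h1, mul_zero]
      rw [h1, mul_zero, zero_sub, neg_eq_zero] at h0
      exact (mul_eq_zero.1 h0).resolve_right h2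
  · refine ⟨b 1 / h 1, ?_⟩
    funext i
    fin_cases i
    · simp only [Fin.zero_eta, Fin.isValue, Pi.smul_apply, smul_eq_mul]
      rw [div_mul_eq_mul_div, eq_div_iff h1]
      exact sub_eq_zero.1 h0
    · simp only [Fin.mk_one, Fin.isValue, Pi.smul_apply, smul_eq_mul]
      rw [div_mul_cancel₀ _ h1]

end

theorem lag : S_LAG := by
  intro K _ ν _ b c
  induction c using Finset.induction_on with
  | empty =>
    intro _ _ hc
    exact absurd hc Finset.not_nonempty_empty
  | insert j' c hj' ih =>
    intro hb hp _ e g hg hce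
    rw [Finset.card_insert_of_notMem hj'] at hce ⊢
    by_cases hc : c.Nonempty
    · have hbj : b j' ≠ 0 := hb j' (Finset.mem_insert_self _ _)
      obtain ⟨w, hw1, hw2, hw3⟩ := exists_w (b j') hbj
      obtain ⟨d, rfl⟩ : ∃ d, e = c.card + d := ⟨e - c.card, by omega⟩
      have hcpos : 1 ≤ c.card := Finset.card_pos.2 hc
      have hP : (∏ i ∈ c, lin (b i)).IsHomogeneous c.card := by
        have := IsHomogeneous.prod c (fun i => lin (b i)) (fun _ => 1)
          (fun i _ => lin_isHom (b i))
        simpa using this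
      have hPe : eval (zpt (b j')) (∏ i ∈ c, lin (b i)) ≠ 0 := by
        rw [map_prod, Finset.prod_ne_zero_iff]
        intro i hi h0
        obtain ⟨t, ht⟩ := prop_of_eval (b j') (b i) hbj h0
        have := hp i (Finset.mem_insert_of_mem hi) j' (Finset.mem_insert_self _ _) t ht
        exact hj' (this ▸ hi)
      set P := ∏ i ∈ c, lin (b i) with hPdef
      set κ : K := eval (zpt (b j')) g / eval (zpt (b j')) P with hκ
      have hwd : (w ^ d).IsHomogeneous d := by
        simpa using hw1.pow d
      have hκw : (C κ * w ^ d).IsHomogeneous d := by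
        simpa using (isHomogeneous_C (Fin 2) κ).mul hwd
      have hg1 : (g - (C κ * w ^ d) * P).IsHomogeneous (c.card + d) := by
        refine hg.sub ?_
        have := hκw.mul hP
        rwa [add_comm] at this
      have hev : eval (zpt (b j')) (g - (C κ * w ^ d) * P) = 0 := by
        rw [map_sub, map_mul, map_mul, map_pow, eval_C, hw2, one_pow, mul_one, hκ,
          div_mul_cancel₀ _ hPe, sub_self]
      obtain ⟨q₀, hq₀⟩ := dvd_of_eval (b j') hbj hg1 hev
      have hq : g - (C κ * w ^ d) * P =
          lin (b j') * homogeneousComponent (c.card + d - 1) q₀ := by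
        refine hom_factor (lin_isHom (b j')) ?_ hq₀
        rwa [show 1 + (c.card + d - 1) = c.card + d by omega]
      have hqh := homogeneousComponent_isHomogeneous (c.card + d - 1) q₀
      set q := homogeneousComponent (c.card + d - 1) q₀ with hqdef
      obtain ⟨q', hq'1, hq'2⟩ := ih (fun i hi => hb i (Finset.mem_insert_of_mem hi))
        (fun i hi j hj t => hp i (Finset.mem_insert_of_mem hi) j (Finset.mem_insert_of_mem hj) t)
        hc (c.card + d - 1) q hqh (by omega)
      refine ⟨fun j => if j = j' then C κ * w ^ d else q' j, ?_, ?_⟩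
      · intro i
        rw [show c.card + d + 1 - (c.card + 1) = d by omega]
        by_cases hi : i = j'
        · simp only [hi, if_true]
          exact hκw
        · simp only [hi, if_false]
          have := hq'1 i
          rwa [show c.card + d - 1 + 1 - c.card = d by omega] at this
      · rw [Finset.sum_insert hj', Finset.erase_insert hj']
        simp only [if_true]
        have h5 : ∑ j ∈ c, (if j = j' then C κ * w ^ d else q' j) *
            ∏ i ∈ (insert j' c).erase j, lin (b i) = lin (b j') * q := by
          rw [hq'2, Finset.mul_sum]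
          refine Finset.sum_congr rfl fun j hj => ?_
          have hjj : j ≠ j' := fun h => hj' (h ▸ hj)
          rw [if_neg hjj, Finset.erase_insert_of_ne hjj.symm,
            Finset.prod_insert (fun h => hj' (Finset.mem_of_mem_erase h))]
          ring
        rw [h5, ← hq]
        ring
    · rw [Finset.not_nonempty_iff_eq_empty] at hc
      subst hc
      refine ⟨fun _ => g, ?_, ?_⟩
      · intro i
        simpa using hg
      · simp

end Pool.Agent.H83.GR
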